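import Mathlib
import Pool.Agent.W307.RT.Tors
import Pool.Agent.Q17.BF.One
import Pool.Agent.Q17.FT.Uni

/-!
# The distribution of the rank over multiquadratic fields, uniformly in the field

All elliptic curves over `ℚ` with full rational 2-torsion are ordered by height. There is one set `Z`
of curves of density zero such that for all `s` and `k` there is `C` such that for all the
multiquadratic number fields `K = ℚ(√d_1, ..., √d_s)` the average over the curves `E` outside of `Z`
of `2 ^ (k (rank E(K) + corank of the 2-primary part of Ш(E / K)))` is at most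
`C (2 * 8 ^ (2 ^ s k)) ^ ω`, `ω` the number of the primes that divide `d_1 ... d_s`. So for every
multiquadratic field `K` the upper density of the curves with `rank E(K) ≥ r` decays faster than any
exponential `B ^ (-r)`.

The Tate-Shafarevich group over a number field is that of `Pool.Agent.TH841.NF.ShaN`: continuous
cocycles of the absolute Galois group with values in the points over the algebraic closure, locally
trivial at all the completions of `K`, modulo the coboundaries.
-/

set_option autoImplicit false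

namespace Pool.Agent.Results.MP_e996df_nt.FullTwoTorsionFields

open Finset Filter Topology

open Pool.Agent.TH841.NF.D (HasDiv crk rk)

/-- the curve `y² = x³ + A x + B` over a field `K` -/
def E (K : Type) [Field K] (A B : ℤ) : WeierstrassCurve K := ⟨0, 0, 0, (A : K), (B : K)⟩

open Classical in
/-- The pairs `(A, B)` of integers such that `4 A³ + 27 B² ≠ 0`, there is no prime `p` with
`p⁴ ∣ A` and `p⁶ ∣ B`, the height `max (4 |A|³) (27 B²)` is at most `H`, and `Z/2 x Z/2` embeds in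
the group of the rational points of `y² = x³ + A x + B`. (The bounds `|A|, |B| ≤ H` follow from the
bound of the height. Every elliptic curve over `ℚ` is isomorphic to `E ℚ A B` for exactly one pair
with the first two properties.) -/
noncomputable def Fam (H : ℕ) : Finset (ℤ × ℤ) :=
  ((Icc (-(H : ℤ)) H) ×ˢ (Icc (-(H : ℤ)) H)).filter (fun c : ℤ × ℤ =>
    4 * c.1 ^ 3 + 27 * c.2 ^ 2 ≠ 0 ∧ 4 * |c.1| ^ 3 ≤ H ∧ 27 * c.2 ^ 2 ≤ H ∧
    (∀ p : ℕ, p.Prime → ¬ ((p : ℤ) ^ 4 ∣ c.1 ∧ (p : ℤ) ^ 6 ∣ c.2)) ∧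
    ∃ f : ZMod 2 × ZMod 2 →+ (E ℚ c.1 c.2).toAffine.Point, Function.Injective f)

/-- the proportion of the curves of `S` among the curves of height at most `H` -/
noncomputable def proportion (S : Set (ℤ × ℤ)) (H : ℕ) : ℝ :=
  (((Fam H : Set (ℤ × ℤ)) ∩ S).ncard : ℝ) / ((Fam H).card : ℝ)

/-- the upper density of a set of curves -/
noncomputable def upperDensity (S : Set (ℤ × ℤ)) : ℝ := limsup (proportion S) atTop

/-- the number field `K` is generated by square roots of the integers `d i` -/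
def Gen (K : Type) [Field K] [NumberField K] {s : ℕ} (d : Fin s → ℤ) : Prop :=
  ∃ x : Fin s → K, (∀ i, x i ^ 2 = (d i : K)) ∧
    IntermediateField.adjoin ℚ (Set.range x) = ⊤

/-- the number of the primes that divide one of the `d i` -/
noncomputable def primes {s : ℕ} (d : Fin s → ℤ) : ℕ := (∏ i, d i).natAbs.primeFactors.card

/-! ### Proofs -/

open Pool.Agent.W307.SE (Sel)
open Pool.Agent.TH344.GT (EXC)
open Pool.Agent.Q17.BF (PS)

lemma Fam_eq : Fam = Pool.Agent.W307.RT.Cv 2 := by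
  classical
  funext H
  unfold Fam Pool.Agent.W307.RT.Cv
  apply filter_congr
  intro c _
  have h : Pool.Agent.W307.RT.HasT 2 (Pool.Agent.W307.RT.Sh c.1 c.2) ↔
      ∃ f : ZMod 2 × ZMod 2 →+ (E ℚ c.1 c.2).toAffine.Point, Function.Injective f :=
    Pool.Agent.W307.RT.tors_iff
  rw [h]

lemma primes_le {s : ℕ} {d : Fin s → ℤ} (hd : ∀ i, d i ≠ 0) (T : Finset (Fin s)) :
    (∏ i ∈ T, d i).natAbs.primeFactors.card ≤ primes d := by
  apply card_le_card
  apply Nat.primeFactors_mono
  · exact Int.natAbs_dvd_natAbs.2 (prod_dvd_prod_of_subset _ _ _ (subset_univ T))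
  · exact Int.natAbs_ne_zero.2 (prod_ne_zero_iff.2 fun i _ => hd i)

open Classical in
/-- **Theorem.** The number of the elliptic curves over `ℚ` of height at most `H` with full rational
2-torsion tends to infinity with `H`. There is a set `Z` of these curves of density zero such that
for all `s` and `k` there is `C` such that for all number fields `K = ℚ(√d_1, ..., √d_s)` and all `H`,
if `M = C (2 * 8 ^ (2 ^ s k)) ^ ω` with the number `ω` of the primes that divide `d_1 ... d_s`: the
coranks of the 2-primary parts of the groups `Ш(E / K)`, `E` a curve of height at most `H`, are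
finite, the sum of `(2 ^ (rank E(K) + corank Ш(E / K)[2^∞])) ^ k` over the curves of height at most
`H` outside of `Z` is at most `M` times the number of the curves of height at most `H`, and at most
`M / 2 ^ (k r)` times this number of the curves outside of `Z` have
`rank E(K) + corank Ш(E / K)[2^∞] ≥ r`. For all these fields and all `B` the upper density of the
curves with `rank E(K) + corank Ш(E / K)[2^∞] ≥ r`, times `B ^ r`, tends to zero for `r → ∞`. -/
theorem result :
    Tendsto (fun H : ℕ => (Fam H).card) atTop atTop ∧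
    (∃ Z : Set (ℤ × ℤ), Tendsto (proportion Z) atTop (𝓝 0) ∧
      ∀ s k : ℕ, ∃ C : ℝ, ∀ d : Fin s → ℤ, (∀ i, d i ≠ 0) →
      ∀ (K : Type) [Field K] [NumberField K], Gen K d → ∀ H : ℕ,
        (∀ c ∈ Fam H, BddAbove {q | HasDiv (E K c.1 c.2) q}) ∧
        ∑ c ∈ (Fam H).filter (fun c => c ∉ Z),
          ((2 : ℝ) ^ (rk (E K c.1 c.2) + crk (E K c.1 c.2))) ^ k ≤
            C * (2 * 8 ^ (2 ^ s * k)) ^ primes d * (Fam H).card ∧
        ∀ r : ℕ, (((Fam H).filter (fun c => c ∉ Z ∧
          r ≤ rk (E K c.1 c.2) + crk (E K c.1 c.2))).card : ℝ) ≤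
            C * (2 * 8 ^ (2 ^ s * k)) ^ primes d * (Fam H).card / 2 ^ (k * r)) ∧
    ∀ (s : ℕ) (d : Fin s → ℤ), (∀ i, d i ≠ 0) → ∀ (K : Type) [Field K] [NumberField K], Gen K d →
      ∀ B : ℝ, Tendsto (fun r : ℕ => B ^ r *
        upperDensity {c | r ≤ rk (E K c.1 c.2) + crk (E K c.1 c.2)}) atTop (𝓝 0) := by
  obtain ⟨F, hF, Z, hZ1, hZ2⟩ := Pool.Agent.Q17.FT.unif
  rw [← Fam_eq] at hF hZ1 hZ2
  -- one curve
  have one : ∀ (H : ℕ) (c : ℤ × ℤ), c ∈ Fam H → ∀ (K : Type) [Field K] [NumberField K] (s : ℕ)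
      (d : Fin s → ℤ), Gen K d → (∀ i, d i ≠ 0) → ∀ q : ℕ, HasDiv (E K c.1 c.2) q →
      (2 : ℝ) ^ (rk (E K c.1 c.2) + q) ≤ (PS d (F c).1 (F c).2 : ℕ) := by
    intro H c hc K _ _ s d hK hd q hq
    obtain ⟨h1, h2, h3, h4, e1, e2, e3, hr, h5, h6⟩ := hF H c hc
    exact Pool.Agent.Q17.BF.one_curve hK hd (w := 1) one_ne_zero h1 hr (by rw [h5]; ring)
      (by rw [h6]; ring) h2 h3 h4 hq
  have hPS : ∀ s k : ℕ, ∃ C : ℝ, ∀ d : Fin s → ℤ, (∀ i, d i ≠ 0) → ∀ H,
      ∑ c ∈ (Fam H).filter (fun c => c ∉ Z), ((PS d (F c).1 (F c).2 : ℕ) : ℝ) ^ k ≤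
        C * (2 * 8 ^ (2 ^ s * k)) ^ primes d * (Fam H).card := by
    intro s k
    obtain ⟨C, hC0, hC⟩ := hZ2 (2 ^ s * k)
    refine ⟨2 ^ s * C, fun d hd H => ?_⟩
    have hc : Fintype.card (Finset (Fin s)) = 2 ^ s := by
      rw [Fintype.card_finset, Fintype.card_fin]
    calc ∑ c ∈ (Fam H).filter (fun c => c ∉ Z), ((PS d (F c).1 (F c).2 : ℕ) : ℝ) ^ k
        ≤ ∑ c ∈ (Fam H).filter (fun c => c ∉ Z), ∑ T : Finset (Fin s),
          ((Sel ((∏ i ∈ T, d i) * (F c).1) ((∏ i ∈ T, d i) * (F c).2)).ncard : ℝ) ^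
            (2 ^ s * k) := by
          refine sum_le_sum fun c _ => ?_
          have := Pool.Agent.TH841.NF.prod_pow_le (fun T : Finset (Fin s) =>
            ((Sel ((∏ i ∈ T, d i) * (F c).1) ((∏ i ∈ T, d i) * (F c).2)).ncard : ℝ))
            (fun T => Nat.cast_nonneg _) k
          rw [hc] at this
          refine le_trans (le_of_eq ?_) this
          unfold PS
          push_cast
          rfl
      _ = ∑ T : Finset (Fin s), ∑ c ∈ (Fam H).filter (fun c => c ∉ Z),
          ((Sel ((∏ i ∈ T, d i) * (F c).1) ((∏ i ∈ T, d i) * (F c).2)).ncard : ℝ) ^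
            (2 ^ s * k) := sum_comm
      _ ≤ ∑ _T : Finset (Fin s), C * (2 * 8 ^ (2 ^ s * k)) ^ primes d * (Fam H).card := by
          refine sum_le_sum fun T _ => ?_
          refine (hC (∏ i ∈ T, d i) (prod_ne_zero_iff.2 fun i _ => hd i) H _
            (filter_subset _ _) fun c hc => (mem_filter.1 hc).2).trans ?_
          have h1 : (1 : ℝ) ≤ 2 * 8 ^ (2 ^ s * k) := by
            have : (1 : ℝ) ≤ 8 ^ (2 ^ s * k) := one_le_pow₀ (by norm_num)
            linarith
          have h2 := pow_le_pow_right₀ h1 (primes_le hd T)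
          gcongr
      _ = _ := by
          rw [sum_const, card_univ, hc, nsmul_eq_mul]
          push_cast
          ring
  have hZd : ∀ ε : ℝ, 0 < ε → ∃ H0 : ℕ, ∀ H, H0 ≤ H →
      (((Fam H).filter (fun c => c ∈ Z)).card : ℝ) ≤ ε * (Fam H).card := by
    intro ε hε
    obtain ⟨H0, h⟩ := hZ1 ε hε
    refine ⟨H0, fun H hH => ?_⟩
    have e0 : ((Fam H : Set (ℤ × ℤ)) ∩ Z) =
      (((Fam H).filter (fun c => c ∈ Z) : Finset (ℤ × ℤ)) : Set (ℤ × ℤ)) := by
      ext c
      simp
    have h1 := h H hH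
    rw [e0, Set.ncard_coe_finset] at h1
    exact h1
  refine ⟨?_, ⟨Z, Pool.Agent.TH344.GT.tendsto_of_eps Fam ?_, ?_⟩, ?_⟩
  · rw [Fam_eq]
    exact Pool.Agent.W307.RT.tendsto_of_low Pool.Agent.W672.FK.lowf
  · intro ε hε
    obtain ⟨X0, h⟩ := hZd ε hε
    exact ⟨X0, h⟩
  · intro s k
    obtain ⟨C, hC⟩ := hPS s k
    refine ⟨C, fun d hd K _ _ hK H => ?_⟩
    have h := Pool.Agent.TH841.NF.famN ((Fam H).filter (fun c => c ∉ Z)) (fun _ => K)
      (fun c => E K c.1 c.2) (fun c => ((PS d (F c).1 (F c).2 : ℕ) : ℝ)) k _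
      (fun c hc q hq => one H c (mem_filter.1 hc).1 K s d hK hd q hq) (hC d hd H)
    refine ⟨fun c hc => Pool.Agent.TH841.NF.bdd_of fun q hq => one H c hc K s d hK hd q hq,
      h.2.1, fun r => ?_⟩
    have h1 := h.2.2 r
    rw [filter_filter] at h1
    exact h1
  · intro s d hd K _ _ hK B
    have hexc : EXC Fam (fun c => PS d (F c).1 (F c).2) := by
      refine ⟨Z, fun ε hε => ?_, fun k => ?_⟩
      · obtain ⟨X0, h⟩ := hZd ε hε
        exact ⟨X0, fun X hX => le_trans (le_of_eq (by congr)) (h X hX)⟩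
      · obtain ⟨C, hC⟩ := hPS s k
        exact ⟨C * (2 * 8 ^ (2 ^ s * k)) ^ primes d,
          fun X => le_trans (le_of_eq (by congr)) (hC d hd X)⟩
    refine Pool.Agent.TH344.GT.tail Fam hexc 1
      (S := fun r => {c | r ≤ rk (E K c.1 c.2) + crk (E K c.1 c.2)}) (fun r H c hc hr => ?_) B
    rw [pow_one]
    have h1 := one H c hc K s d hK hd _ (Pool.Agent.TH841.NF.crk_mem
      (Pool.Agent.TH841.NF.bdd_of fun q hq => one H c hc K s d hK hd q hq))
    have h2 : 2 ^ (rk (E K c.1 c.2) + crk (E K c.1 c.2)) ≤ PS d (F c).1 (F c).2 := by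
      exact_mod_cast h1
    exact (Nat.pow_le_pow_right (by norm_num) hr).trans h2

end Pool.Agent.Results.MP_e996df_nt.FullTwoTorsionFields
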