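import Mathlib
import Pool.Agent.Y696.Nm

/-!
# The curve `y² + y = x³` over arbitrary towers of Galois extensions of 2-power degree: rank, 2-primary
part of the Tate-Shafarevich group, torsion and Tamagawa numbers

We consider the number fields `K` that are obtained from the field `ℚ(√-3)` by finitely many steps, each
step being a Galois extension `K' / F'` of 2-power degree (with any Galois group of 2-power order) which
is unramified at all the primes `v` of `F'` such that `2` is a cube modulo `v`.  So `K` is in general
neither abelian nor Galois over `ℚ(√-3)` or `ℚ`, and nothing is known on the analytic continuation of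
`L(E/K, s)`.  We also consider the fields `k` with `k(√-3) = K`, `√-3` not in `k`.

For all these fields, and `E : y² + y = x³`: the group `E(K)` is finite of odd order, in particular the
rank is zero; `Ш(E/K)[2^∞] = 0`; the equation is minimal at all finite places; all the Tamagawa numbers
are odd; and the discriminant of `K` is odd.  So part (ii) of the conjecture holds for `p = 2`, and part
(iii) says for `p = 2` that `L(E/K, 1) √|Δ_K| / Ω` is a unit at `2`.

The proof (`Pool.Agent.Y696`): a nonzero 2-Selmer group over `K'` would have a nonzero element fixed by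
the Galois group `Gal(K' / F')`; as there is no point of order two it comes from an element of the cubic
algebra over `F'`, whose local conditions are checked at the unramified primes; at the primes where `2`
is not a cube there is no condition.  So the vanishing of the Selmer groups goes up the tower.
-/

set_option autoImplicit false

namespace Pool.Agent.Results.MP_e996df_nt.ShaOverTwoTowers

open NumberField IsDedekindDomain Pool.Agent.Y696
open scoped Classical

/-- `K / F` is unramified at all the places `v` of `F` such that `2` is a cube modulo `v`: all the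
ramification indices of the places of `K` over `v` are one. -/
def UnramifiedAtCubes (F K : Type) [Field F] [NumberField F] [Field K] [NumberField K]
    [Algebra F K] : Prop :=
  ∀ (v : HeightOneSpectrum (𝓞 F)) (w : HeightOneSpectrum (𝓞 K)), w.asIdeal.LiesOver v.asIdeal →
    (∃ x : 𝓞 F, x ^ 3 - 2 ∈ v.asIdeal) → v.asIdeal.ramificationIdx' w.asIdeal = 1

/-- The number fields that are obtained from the field of the third roots of unity by finitely many
Galois extensions of 2-power degree, each unramified at the places modulo which `2` is a cube. -/
inductive Tower : ∀ (K : Type) [Field K] [NumberField K], Prop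
  | base (F : Type) [Field F] [NumberField F] [IsCyclotomicExtension {3} ℚ F] : Tower F
  | step (F K : Type) [Field F] [NumberField F] [Field K] [NumberField K] [Algebra F K]
      [IsGalois F K] (n : ℕ) (hn : Module.finrank F K = 2 ^ n) (hu : UnramifiedAtCubes F K) :
      Tower F → Tower K

/-- the 2-primary part of the Tate-Shafarevich group of `y² + y = x³` over `K` -/
def Sha2 (K : Type) [Field K] [NumberField K] : Set (Pool.Agent.TH841.NF.D.Sha (E27 K)) :=
  {x | ∃ n : ℕ, 2 ^ n • x = 0}

/-- The algebraic terms of the conjecture for `E : y² + y = x³` over `k`: the rank is zero, `E(k)` is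
finite of odd order, `Ш(E/k)[2^∞] = 0`, and at all the finite places `v` the equation is minimal and the
index in `E(k_v)` of the group of the points of nonsingular reduction, the Tamagawa number, is odd. -/
structure AlgebraicSide (k : Type) [Field k] [NumberField k] : Prop where
  rank : Module.finrank ℤ (E27 k).toAffine.Point = 0
  finite : Finite (E27 k).toAffine.Point
  odd : Odd (Nat.card (E27 k).toAffine.Point)
  sha : Sha2 k = {0}
  loc : ∀ v : HeightOneSpectrum (𝓞 k),
    WeierstrassCurve.IsMinimal (v.adicCompletionIntegers k)
      ((E27 k).baseChange (v.adicCompletion k)) ∧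
    ∃ H : AddSubgroup ((E27 k).baseChange (v.adicCompletion k)).toAffine.Point,
      (∀ P, P ∈ H ↔ NonsingRed Valued.v ((E27 k).baseChange (v.adicCompletion k)) P) ∧
      Odd H.index

section proof

lemma sha2_eq {K : Type} [Field K] [NumberField K]
    (h : ∀ x : Pool.Agent.TH841.NF.D.Sha (E27 K), x + x = 0 → x = 0) : Sha2 K = {0} := by
  have key : ∀ (j : ℕ) (x : Pool.Agent.TH841.NF.D.Sha (E27 K)), 2 ^ j • x = 0 → x = 0 := by
    intro j
    induction j with
    | zero => intro x hx; rw [pow_zero, one_nsmul] at hx; exact hx
    | succ j ih =>
      intro x hx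
      rw [pow_succ, mul_nsmul, two_nsmul] at hx
      exact ih x (h _ hx)
  ext x
  constructor
  · rintro ⟨k, hk⟩
    exact key k x hk
  · rintro rfl
    exact ⟨0, nsmul_zero _⟩

lemma rank_zero {K : Type} [Field K] [NumberField K] (hfin : Finite (E27 K).toAffine.Point) :
    Module.finrank ℤ (E27 K).toAffine.Point = 0 := by
  apply Module.IsTorsion.finrank_eq_zero
  intro P
  refine ⟨⟨(Nat.card (E27 K).toAffine.Point : ℤ), ?_⟩, ?_⟩
  · rw [mem_nonZeroDivisors_iff_ne_zero]
    exact_mod_cast Nat.card_pos.ne'
  · show (Nat.card (E27 K).toAffine.Point : ℤ) • P = 0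
    rw [natCast_zsmul]
    exact card_nsmul_eq_zero'

lemma val_ram (F K : Type) [Field F] [NumberField F] [Field K] [NumberField K] [Algebra F K]
    (v : HeightOneSpectrum (𝓞 F)) (w : HeightOneSpectrum (𝓞 K))
    (hlo : w.asIdeal.LiesOver v.asIdeal) (x : F) :
    v.valuation F x ^ v.asIdeal.ramificationIdx' w.asIdeal = w.valuation K (algebraMap F K x) :=
  HeightOneSpectrum.valuation_liesOver K v w x

lemma unr_self (F : Type) [Field F] [NumberField F] : UnramifiedAtCubes F F := by
  intro v w hlo _
  have h1 : w = v := by
    apply HeightOneSpectrum.ext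
    have h2 := hlo.over
    rw [h2]
    ext x
    rw [Ideal.mem_under]
    rfl
  subst h1
  obtain ⟨π, hπ⟩ := w.valuation_exists_uniformizer F
  have h3 := val_ram F F w w hlo π
  have h4 : algebraMap F F π = π := rfl
  rw [h4, hπ, ← WithZero.exp_nsmul] at h3
  have h5 := WithZero.exp_injective h3
  rw [nsmul_eq_mul] at h5
  refine Nat.cast_injective (R := ℤ) ?_
  rw [Nat.cast_one]
  linarith

lemma gn {K : Type} [Field K] [NumberField K] (h : Tower K) : Gn K := by
  induction h with
  | base F =>
    have h1 : Module.finrank F F = 2 ^ 0 := by rw [Module.finrank_self, pow_zero]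
    exact Gn.of h1 (unr_self F)
  | step F K n hn hu hF ih => exact ih.step hn hu

lemma side_of_gn {K : Type} [Field K] [NumberField K] (h : Gn K) : AlgebraicSide K := by
  have hfin : Finite (E27 K).toAffine.Point := h.pts_odd.1
  refine ⟨rank_zero hfin, hfin, h.pts_odd.2, sha2_eq h.sha_two, fun v => ⟨h.min_all v, ?_⟩⟩
  obtain ⟨H, h7, h8⟩ := h.tam_all v
  exact ⟨H, fun P => (h7 P).trans (by cases P <;> rfl), h8⟩

lemma side_small {k K : Type} [Field k] [NumberField k] [Field K] [NumberField K] [Algebra k K]
    (h2 : Module.finrank k K = 2) (h : Gn K) : AlgebraicSide k := by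
  have hp := Gn.pts_small (K₀ := k) h
  have hfin : Finite (E27 k).toAffine.Point := hp.1
  refine ⟨rank_zero hfin, hfin, hp.2, sha2_eq ?_, fun v => ⟨h.min_small v, ?_⟩⟩
  · exact Pool.Agent.Y664.QA.jobA h2 h.pts_odd.2 fun f hf h2f hl => h.selE hf h2f hl
  · obtain ⟨H, h7, h8⟩ := h.tam_small v
    exact ⟨H, fun P => (h7 P).trans (by cases P <;> rfl), h8⟩

end proof

/-- **Main theorem.** Let `K` be a number field that is obtained from the field of the third roots of
unity by finitely many Galois extensions of 2-power degree, each unramified at the places modulo which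
`2` is a cube, and let `E : y² + y = x³`.  Then `E(K)` is finite of odd order, `Ш(E/K)[2^∞] = 0`, the
equation is minimal at all finite places, the Tamagawa numbers and the discriminant of `K` are odd; and
all this holds also for all the fields `k` such that `K` is a quadratic extension of `k`. -/
theorem result (K : Type) [Field K] [NumberField K] (hK : Tower K) :
    AlgebraicSide K ∧ ¬ (2 : ℤ) ∣ discr K ∧
      ∀ (k : Type) [Field k] [NumberField k] [Algebra k K], Module.finrank k K = 2 →
        AlgebraicSide k ∧ ¬ (2 : ℤ) ∣ discr k := by
  have h := gn hK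
  refine ⟨side_of_gn h, h.disc_odd, fun k _ _ _ h2 => ⟨side_small h2 h, fun hd => ?_⟩⟩
  exact h.disc_odd (hd.trans (discr_dvd_discr k K))

end Pool.Agent.Results.MP_e996df_nt.ShaOverTwoTowers
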