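import Pool.Agent.Y702.G.Main
import Pool.Agent.Y702.G.Sel2
import Pool.Agent.Y702.F.Tam
import Pool.Agent.Y93.G.Inv
import Pool.Agent.Y141.G2.KUMP
import Pool.Agent.Y852.GS.Spl
import Pool.Agent.Y852.GS.Tams
import Pool.Agent.Y852.GS.Mins
import Pool.Agent.Y76.GPar.Par
import Pool.Agent.Y710.CV.Conv
import Pool.Agent.Y46.G2.Emb
import Pool.Agent.Y500.G.FLM
import Pool.Agent.Y67.LZ.Main
import Pool.Agent.Y125.DQ.Main
import Pool.Agent.Y355.G.Desc
import Pool.Agent.Y779.G.Tam
import Pool.Agent.Q119.SK.Down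
import Pool.Agent.Q119.SK.Plc

/-!
# All the terms of the 2-part are trivial over all the subfields of the Galois 2-extensions of `ℚ`

`E` is an elliptic curve over `ℚ` with negative discriminant `Δ` (integral equation `W`), such that
`E(ℚ)` is finite of odd order and `Ш(E/ℚ)` has no element of order two.  `K / ℚ` is any Galois
extension of 2-power degree, abelian or not, real or not, in which only primes `l ∤ 2 Δ` with `a_l` odd
ramify (so `E` has no points of order two modulo `l`), and in which the primes that divide `2 Δ` split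
completely.  `k` is any subfield of `K`, Galois over `ℚ` or not.  Then `E(k)` is finite of odd order,
`Ш(E/k)[2^∞] = 0`, the equation of `E` is minimal over `k` if it is so over `ℚ`, and the Tamagawa
numbers over `k` are odd if they are so over `ℚ`: the right-hand side of the 2-part of the conjecture of
Birch and Swinnerton-Dyer for `E` over `k` is a unit, in rank zero.
-/

set_option autoImplicit false

open NumberField IsDedekindDomain WeierstrassCurve

namespace Pool.Agent.Results.MP_e996df_nt.SubfieldsOfTwoExtensions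

open scoped Classical

open Pool.Agent.TH841.NF.D (Sha)

/-- The curve given by the equation of `W` over the ring `R`. -/
abbrev base (W : WeierstrassCurve ℤ) (R : Type) [CommRing R] : WeierstrassCurve R :=
  W.map (Int.castRingHom R)

/-- The number of the affine points `(x, y)` over the ring `R`. -/
noncomputable def pts (W : WeierstrassCurve ℤ) (R : Type) [CommRing R] : ℕ :=
  Nat.card {P : R × R // (base W R).toAffine.Equation P.1 P.2}

section

variable {K : Type} [Field K] [NumberField K]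

/-- The equation is minimal at the finite place `v` of `K`: no change of variables over `K` that
keeps the coefficients integral at `v` decreases the valuation of the discriminant. -/
def MinimalAt (W : WeierstrassCurve ℤ) (v : HeightOneSpectrum (𝓞 K)) : Prop :=
  ∀ C : VariableChange K, v.valuation K (C • base W K).a₁ ≤ 1 →
    v.valuation K (C • base W K).a₂ ≤ 1 → v.valuation K (C • base W K).a₃ ≤ 1 →
    v.valuation K (C • base W K).a₄ ≤ 1 → v.valuation K (C • base W K).a₆ ≤ 1 →
    v.valuation K (C • base W K).Δ ≤ v.valuation K (base W K).Δ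

/-- `E⁰(K_v)`, the group of the points of `W` over the completion `K_v` with nonsingular reduction:
the points `(x, y)` where `x` is not integral, or one of the partial derivatives of
`y² + a₁ x y + a₃ y - x³ - a₂ x² - a₄ x - a₆` is a unit at `(x, y)`, and the point at infinity. -/
noncomputable def nonsing (W : WeierstrassCurve ℤ) (v : HeightOneSpectrum (𝓞 K)) :
    AddSubgroup (base W (v.adicCompletion K)).toAffine.Point :=
  AddSubgroup.closure {P | ∀ x y h, P = Affine.Point.some x y h →
    1 < Valued.v x ∨ Valued.v (W.a₁ * y - (3 * x ^ 2 + 2 * W.a₂ * x + W.a₄)) = 1 ∨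
      Valued.v (2 * y + W.a₁ * x + W.a₃) = 1}

/-- The Tamagawa number `c_v = [E(K_v) : E⁰(K_v)]` of a minimal equation. -/
noncomputable def c (W : WeierstrassCurve ℤ) (v : HeightOneSpectrum (𝓞 K)) : ℕ :=
  (nonsing W v).index

end

/-- The terms of the 2-part of the conjecture are trivial over `k`, in rank zero: the group of the
points over `k` is finite of odd order, its rank is zero, and the 2-primary part of the
Tate-Shafarevich group over `k` is trivial. -/
structure TwoTrivial (k : Type) [Field k] [NumberField k] (W : WeierstrassCurve ℤ) : Prop where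
  finite : Finite (base W k).toAffine.Point
  odd : Odd (Nat.card (base W k).toAffine.Point)
  rank : Module.finrank ℤ (base W k).toAffine.Point = 0
  sha : ∀ (j : ℕ) (x : Sha (base W k)), 2 ^ j • x = 0 → x = 0

section proof

open Pool.Agent.Y702

lemma c_eq {K : Type} [Field K] [NumberField K] (W : WeierstrassCurve ℤ)
    (v : HeightOneSpectrum (𝓞 K)) : c W v = (G.E0 W (v.adicCompletion K) Valued.v).index := rfl

lemma rank_eq {K : Type} [Field K] [NumberField K] {W : WeierstrassCurve ℤ}
    (h : Finite (base W K).toAffine.Point) : Module.finrank ℤ (base W K).toAffine.Point = 0 := by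
  apply Module.IsTorsion.finrank_eq_zero
  intro P
  refine ⟨⟨(Nat.card (base W K).toAffine.Point : ℤ), ?_⟩, ?_⟩
  · rw [mem_nonZeroDivisors_iff_ne_zero]
    exact_mod_cast Nat.card_pos.ne'
  · show (Nat.card (base W K).toAffine.Point : ℤ) • P = 0
    rw [natCast_zsmul]
    exact card_nsmul_eq_zero'

lemma sha_eq {K : Type} [Field K] [NumberField K] {W : WeierstrassCurve ℤ}
    (h : ∀ s : Sha (base W K), 2 • s = 0 → s = 0) :
    ∀ (j : ℕ) (x : Sha (base W K)), 2 ^ j • x = 0 → x = 0 := by
  intro j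
  induction j with
  | zero => intro x hx; rw [pow_zero, one_nsmul] at hx; exact hx
  | succ j ih =>
    intro x hx
    rw [pow_succ, mul_nsmul] at hx
    exact ih x (h _ hx)

variable {W : WeierstrassCurve ℤ} {k : Type} [Field k] [NumberField k] {m : ℕ}

lemma prime_mem {v : HeightOneSpectrum (𝓞 k)} {d : ℤ} (h2 : (d : 𝓞 k) ∈ v.asIdeal) :
    ((Pool.Agent.H921R2.TatePole.below v : ℕ) : ℤ) ∣ d := by
  have h6 : ((d.natAbs : ℕ) : 𝓞 k) ∈ v.asIdeal := by
    rcases Int.natAbs_eq d with h8 | h8
    · rw [h8] at h2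
      rw [Int.cast_natCast] at h2
      exact h2
    · rw [h8, Int.cast_neg, neg_mem_iff, Int.cast_natCast] at h2
      exact h2
  rw [Pool.Agent.H82R3.EK.natCast_mem_iff] at h6
  exact Int.natCast_dvd.2 h6

/-- the places over the bad primes -/
lemma at_bad (hm : ∀ l : ℕ, l.Prime → l ∣ m → ¬ (l : ℤ) ∣ 2 * W.Δ ∧ Odd ((l : ℤ) - pts W (ZMod l)))
    (hunr : ∀ (p : ℕ), p.Prime → ¬ p ∣ m → ∀ v : HeightOneSpectrum (𝓞 k), (p : 𝓞 k) ∈ v.asIdeal →
      v.valuation k (p : k) = WithZero.exp (-1 : ℤ))
    (v : HeightOneSpectrum (𝓞 k)) (hv : ((W.Δ : ℤ) : 𝓞 k) ∈ v.asIdeal) (x : ℚ) :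
    v.valuation k (algebraMap ℚ k x) = (v.under (𝓞 ℚ)).valuation ℚ x := by
  have h5 : ((Pool.Agent.H921R2.TatePole.below v : ℕ) : ℤ) ∣ 2 * W.Δ :=
    Dvd.dvd.mul_left (prime_mem hv) 2
  have hqm : ¬ (Pool.Agent.H921R2.TatePole.below v : ℕ) ∣ m :=
    fun h => (hm _ (Pool.Agent.H921R2.TatePole.below v).2 h).1 h5
  exact G.val_eq v _ rfl (Pool.Agent.H921R2.TatePole.below v)
    (hunr _ (Pool.Agent.H921R2.TatePole.below v).2 hqm v
      ((Pool.Agent.H82R3.EK.natCast_mem_iff v _).2 dvd_rfl)) x

lemma unit_of_not_mem {v : HeightOneSpectrum (𝓞 k)} (hv : ((W.Δ : ℤ) : 𝓞 k) ∉ v.asIdeal) :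
    v.valuation k (W.Δ : k) = 1 := by
  have e : algebraMap (𝓞 k) k ((W.Δ : ℤ) : 𝓞 k) = (W.Δ : k) := map_intCast _ _
  have h1 : v.valuation k (W.Δ : k) ≤ 1 := Fn.int_le_one v _
  rcases h1.lt_or_eq with h2 | h2
  · exfalso
    apply hv
    have h3 := v.valuation_lt_one_iff_mem (K := k) ((W.Δ : ℤ) : 𝓞 k)
    have h4 : v.valuation k (algebraMap (𝓞 k) k ((W.Δ : ℤ) : 𝓞 k)) < 1 := by
      rw [e]; exact h2
    exact h3.1 h4
  · exact h2

end proof

open Pool.Agent.Y702 Pool.Agent.Q119.SK in
/-- **Main theorem.** Let `W` be an integral Weierstrass equation of an elliptic curve `E` over `ℚ` with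
negative discriminant `Δ`, such that `E(ℚ)` is finite of odd order and `Ш(E/ℚ)` has no element of order
two.  Let `K` be a Galois extension of `ℚ` of degree `2^n` (with any Galois group), unramified outside
the prime divisors `l` of a number `m` with `l ∤ 2 Δ` and `a_l` odd, such that the places that
divide `2 Δ` have a residue field of prime order, that is, the primes that divide `2 Δ` split
completely in `K`.  Then for all subfields `k` of `K`, Galois over `ℚ` or not: `E(k)` is finite of odd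
order, and `Ш(E/k)[2^∞] = 0`; the equation `W` is minimal over `k` if it is so over `ℚ`; and the
Tamagawa numbers of `E` over `k` are odd if those over `ℚ` are odd. -/
theorem result (W : WeierstrassCurve ℤ) (hΔ : W.Δ < 0)
    (hfin : Finite (base W ℚ).toAffine.Point) (hcard : Odd (Nat.card (base W ℚ).toAffine.Point))
    (hsha : ∀ s : Sha (base W ℚ), 2 • s = 0 → s = 0)
    (K : Type) [Field K] [NumberField K] [IsGalois ℚ K] (n : ℕ) (hn : Module.finrank ℚ K = 2 ^ n)
    (m : ℕ) (hm : ∀ l : ℕ, l.Prime → l ∣ m →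
      ¬ (l : ℤ) ∣ 2 * W.Δ ∧ Odd ((l : ℤ) - pts W (ZMod l)))
    (hunr : ∀ (p : ℕ), p.Prime → ¬ p ∣ m → ∀ v : HeightOneSpectrum (𝓞 K), (p : 𝓞 K) ∈ v.asIdeal →
      v.valuation K (p : K) = WithZero.exp (-1 : ℤ))
    (hsplit : ∀ v : HeightOneSpectrum (𝓞 K), ((2 * W.Δ : ℤ) : 𝓞 K) ∈ v.asIdeal →
      (Ideal.absNorm v.asIdeal).Prime)
    (k : Type) [Field k] [NumberField k] [Algebra k K] :
    TwoTrivial k W ∧
    ((∀ p : HeightOneSpectrum (𝓞 ℚ), MinimalAt W p) →
      ∀ v : HeightOneSpectrum (𝓞 k), MinimalAt W v) ∧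
    ((∀ p : HeightOneSpectrum (𝓞 ℚ), Odd (c W p)) →
      ∀ v : HeightOneSpectrum (𝓞 k), Odd (c W v)) := by
  have hnr := G.no_root_of_odd W hΔ.ne hfin hcard
  have hsel := G.sel_main2 Pool.Agent.Y93.G.s_inv Pool.Agent.Y141.G2.s_kump
    Pool.Agent.Y852.GS.s_spl Pool.Agent.Y76.GPar.s_par
    (Pool.Agent.Y710.CV.s_conv Pool.Agent.Y46.G2.s_emb)
    (Pool.Agent.Y67.LZ.s_lz Pool.Agent.Y500.G.s_fl) Pool.Agent.Y125.DQ.s_descq
    W hΔ hnr hsha hfin hcard K n m hn hm hunr hsplit
  have hnrK := G.no_root _ hnr K n hn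
  have hV : (G.sh W).Δ ≠ 0 := by
    rw [G.sh_disc]
    exact mul_ne_zero (by norm_num) (by exact_mod_cast hΔ.ne)
  have htower : IsScalarTower ℚ k K := inferInstance
  have hgal : IsGalois k K := IsGalois.tower_top_of_isGalois ℚ k K
  have hselk : G.SelTriv (G.sh W) k := selTriv_down (k := k) (G.sh W) rfl rfl hV hnrK hsel
  have hnrk : ∀ x : k, Pool.Agent.TH115.GD.cub (G.sh W) x ≠ 0 := by
    intro x hx
    apply hnrK (algebraMap k K x)
    have h := Pool.Agent.TH115.GD.cub_map (G.sh W)
      ((Algebra.ofId k K).restrictScalars ℚ) x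
    rw [hx, map_zero] at h
    exact h
  obtain ⟨hsha', hfin', hcard'⟩ := Pool.Agent.Y355.G.s_desc W hΔ.ne k hselk hnrk
  have hunr' : ∀ (p : ℕ), p.Prime → ¬ p ∣ m → ∀ v : HeightOneSpectrum (𝓞 k),
      (p : 𝓞 k) ∈ v.asIdeal → v.valuation k (p : k) = WithZero.exp (-1 : ℤ) := by
    intro p hp hpm v hv
    obtain ⟨w, hw⟩ := above (K := K) v
    refine unr_down hw p hp hv (hunr p hp hpm w ?_)
    have := mem_above hw (p : ℤ) (by rw [Int.cast_natCast]; exact hv)
    rwa [Int.cast_natCast] at this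
  have hsplit' : ∀ v : HeightOneSpectrum (𝓞 k), ((W.Δ : ℤ) : 𝓞 k) ∈ v.asIdeal →
      (Ideal.absNorm v.asIdeal).Prime := by
    intro v hv
    obtain ⟨w, hw⟩ := above (K := K) v
    refine norm_down hw (hsplit w ?_)
    have := mem_above hw W.Δ hv
    push_cast
    exact Ideal.mul_mem_left _ _ this
  refine ⟨⟨hfin', hcard', rank_eq hfin', sha_eq hsha'⟩, fun hmin v => ?_, fun hc v => ?_⟩
  · by_cases hv : ((W.Δ : ℤ) : 𝓞 k) ∈ v.asIdeal
    · exact Pool.Agent.Y852.GS.s_mins W k v _ (at_bad hm hunr' v hv) (hsplit' v hv) (hmin _)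
    · intro C h1 h2 h3 h4 h6
      have e : (base W k).Δ = (W.Δ : k) := by
        rw [WeierstrassCurve.map_Δ]
        simp
      rw [e, unit_of_not_mem hv]
      exact Fn.disc_le v _ h1 h2 h3 h4 h6
  · by_cases hv : ((W.Δ : ℤ) : 𝓞 k) ∈ v.asIdeal
    · rw [c_eq, Pool.Agent.Y852.GS.s_tams W k v _ (at_bad hm hunr' v hv) (hsplit' v hv), ← c_eq]
      exact hc _
    · have hint : ∀ n : ℤ, Valued.v ((n : ℤ) : v.adicCompletion k) ≤ 1 := fun n => by
        rw [Fn.valued_int]
        exact Fn.int_le_one v n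
      rw [c_eq, Pool.Agent.Y779.G.s_tamg W (v.adicCompletion k) Valued.v hint (by
        rw [Fn.valued_int]
        exact unit_of_not_mem hv), AddSubgroup.index_top]
      exact odd_one

end Pool.Agent.Results.MP_e996df_nt.SubfieldsOfTwoExtensions
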