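import Mathlib
import Pool.Agent.Y696.Nh

/-!
# The 2-part of the Birch and Swinnerton-Dyer conjecture for `y² + y = x³` over the abelian extensions
of 2-power degree of `ℚ(√-3, √-7)`

`N = ℚ(√-3, √-7)`, and `K / N` is a Galois extension of degree `2 ^ n` with an Artin map of modulus
`c`, such that `2` is not a cube modulo any prime of `N` that divides `c`.  (`N` has class number one,
so every abelian extension of `N` has an Artin map of some modulus, by class field theory.)  In general
`K` is not abelian, and not even Galois, over the field `ℚ(√-3)` of complex multiplication or over `ℚ`.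

The 2-part of the conjecture holds for `E : y² + y = x³` over `K`: the `L`-function is continued to `ℂ`
and is not zero at `1`; `E(K)` is finite of odd order, so that the order of vanishing is the rank;
`Ш(E/K)[2^∞] = 0`; the equation is minimal at all finite places and all the Tamagawa numbers are odd;
and `L(E/K, 1) √|Δ_K| / Ω` is a unit at all the valuations of `ℂ` above `2`.

The proof is in `Pool.Agent.Y696`.  Analytic side: the `L`-function of `E` over `K` is the product of the
`L`-functions of the Hecke characters `ψ ∘ N_{N/F} · χ` of `N`, `χ` a character of `Gal(K/N)`, and the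
values at `1` are elliptic Dedekind sums over the units of `N`, which are congruent to each other modulo
the primes above `2`.  Algebraic side: descent with the cubic algebra in two steps `K / N` and
`N / ℚ(√-3)`.
-/

set_option autoImplicit false

namespace Pool.Agent.Results.MP_e996df_nt.TwoPartQuarticBase

open NumberField IsDedekindDomain Pool.Agent.Y696
open scoped Classical

/-- the 2-primary part of the Tate-Shafarevich group of `y² + y = x³` over `K` -/
def Sha2 (K : Type) [Field K] [NumberField K] : Set (Pool.Agent.TH841.NF.D.Sha (E27 K)) :=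
  {x | ∃ n : ℕ, 2 ^ n • x = 0}

lemma sha2_eq {K : Type} [Field K] [NumberField K]
    (h : ∀ x : Pool.Agent.TH841.NF.D.Sha (E27 K), x + x = 0 → x = 0) : Sha2 K = {0} := by
  have key : ∀ (j : ℕ) (x : Pool.Agent.TH841.NF.D.Sha (E27 K)), 2 ^ j • x = 0 → x = 0 := by
    intro j
    induction j with
    | zero => intro x hx; rw [pow_zero, one_nsmul] at hx; exact hx
    | succ j ih =>
      intro x hx
      rw [pow_succ, mul_nsmul, two_nsmul] at hx
      exact ih x (h _ hx)
  ext x
  constructor
  · rintro ⟨k, hk⟩
    exact key k x hk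
  · rintro rfl
    exact ⟨0, nsmul_zero _⟩

/-- **Main theorem.** Let `N = ℚ(√-3, √-7)` and let `K / N` be a Galois extension of degree `2 ^ n` with
an Artin map of modulus `c`, such that `2` is not a cube modulo any prime of `N` that divides `c`.  Then
the 2-part of the conjecture of Birch and Swinnerton-Dyer holds for `y² + y = x³` over `K`, all its terms
being units at `2`; in particular the order of the `L`-function at `1` and the rank of `E(K)` are zero
and `Ш(E/K)[2^∞] = 0`. -/
theorem result (N : Type) [Field N] [NumberField N] (h4 : Module.finrank ℚ N = 4)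
    (h3 : ∃ a : N, a ^ 2 = -3) (h7 : ∃ b : N, b ^ 2 = -7)
    (K : Type) [Field K] [NumberField K] [Algebra N K] [IsGalois N K] (n : ℕ)
    (hn : Module.finrank N K = 2 ^ n) (c : 𝓞 N)
    (art : (𝓞 N ⧸ Ideal.span {c})ˣ →* Gal(K/N)) (hart : IsArtin c art)
    (hc : ∀ v : HeightOneSpectrum (𝓞 N), c ∈ v.asIdeal → ∀ x : 𝓞 N, x ^ 3 - 2 ∉ v.asIdeal) :
    (∃ (Λ : PeriodPair) (ω : ℝ), IsPeriods Λ ω) ∧ TwoPart K ∧
      Module.finrank ℤ (E27 K).toAffine.Point = 0 ∧ Sha2 K = {0} := by
  obtain ⟨a, ha⟩ := h3
  obtain ⟨b, hb⟩ := h7
  have h := all_N h4 ha hb hn hart hc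
  have hfin := h.finite
  refine ⟨?_, h, ?_, sha2_eq h.sha⟩
  · obtain ⟨Λ, ω, h1, h2, h3⟩ := exists_real
    exact ⟨Λ, ω, h1, h2, h3⟩
  · apply Module.IsTorsion.finrank_eq_zero
    intro P
    refine ⟨⟨(Nat.card (E27 K).toAffine.Point : ℤ), ?_⟩, ?_⟩
    · rw [mem_nonZeroDivisors_iff_ne_zero]
      exact_mod_cast Nat.card_pos.ne'
    · show (Nat.card (E27 K).toAffine.Point : ℤ) • P = 0
      rw [natCast_zsmul]
      exact card_nsmul_eq_zero'

end Pool.Agent.Results.MP_e996df_nt.TwoPartQuarticBase
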